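import Pool.Agent.Q83.NR.D

/-!
# MP_b08cb4_nt: digits of all powers after a sparse re-randomisation of the base of the power

`noise d T` is the law of a sequence of independent base `b` digits, uniform at the places in `T`
and equal to the prescribed digits `d` at the other places.  `Recurs b c T` says that `T` has an
element in `[x, x + c log_b x]` for all large `x`; such `T` may have density zero.
`occ q v m` is the number of places of the base `q` expansion of `m` at which the word `v` (lowest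
digit first) begins.
-/

set_option autoImplicit false

open MeasureTheory Filter Topology Finset
open Q83.NP Q83.NR

namespace Pool.Agent.Results.MP_b08cb4_nt.NoisyBase

open Classical in
lemma count_digits (q : ℕ) (hq : 2 ≤ q) (a m : ℕ) :
    (Nat.digits q m).count a = ∑ i ∈ range (Nat.digits q m).length, if m / q ^ i % q = a then 1 else 0 := by
  induction m using Nat.strong_induction_on with
  | _ m ih =>
    rcases Nat.eq_zero_or_pos m with h | h
    · subst h; simp
    · rw [Nat.digits_def' (by omega) h, List.count_cons, List.length_cons, Finset.sum_range_succ',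
        ih (m / q) (Nat.div_lt_self h (by omega))]
      congr 1
      · refine Finset.sum_congr rfl fun i _ => ?_
        rw [Nat.div_div_eq_div_mul, ← pow_succ']
      · rw [pow_zero, Nat.div_one]
        by_cases hm : m % q = a
        · simp [hm]
        · simp [hm]

open Classical in
lemma count_occ (q : ℕ) (hq : 2 ≤ q) (a : ℕ) (ha : a < q) (m : ℕ) (hm : m ≠ 0) :
    (Nat.digits q m).count a = occ q (fun _ : Fin 1 => (⟨a, ha⟩ : Fin q)) m := by
  rw [count_digits q hq, Nat.length_digits q m (by omega) hm]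
  unfold occ
  rw [Finset.card_filter]
  refine Finset.sum_congr rfl fun i _ => ?_
  simp

open Classical in
theorem result (b : ℕ) [NeZero b] (hb : 2 ≤ b) :
    (∀ c : ℝ, 0 < c → ∃ T : Set ℕ, Recurs b c T ∧
      Tendsto (fun N : ℕ => (#{t ∈ range N | t ∈ T} : ℝ) / N) atTop (𝓝 0)) ∧
    ∀ (c : ℝ) (T : Set ℕ), c < 1 / 2 → Recurs b c T →
      ∀ (d : ℕ → Fin b) (x r ξ : ℝ), r ≠ 0 → 0 < ξ →
        ∀ᵐ ω ∂(noise d T), (∀ i ∉ T, ω i = d i) ∧ (1 < x + r * Real.ofDigits ω →
          ∀ q : ℕ, 2 ≤ q →
            (∀ a < q, Tendsto (fun n : ℕ =>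
              ((Nat.digits q ⌊ξ * (x + r * Real.ofDigits ω) ^ n⌋₊).count a : ℝ) /
                (n * Real.logb q (x + r * Real.ofDigits ω))) atTop (𝓝 (1 / q))) ∧
            ∀ (k : ℕ) (v : Fin k → Fin q), Tendsto (fun n : ℕ =>
              (occ q v ⌊ξ * (x + r * Real.ofDigits ω) ^ n⌋₊ : ℝ) /
                (n * Real.logb q (x + r * Real.ofDigits ω))) atTop (𝓝 (1 / (q : ℝ) ^ k))) := by
  refine ⟨fun c hc => exists_sparse b hb c hc, fun c T hc hT d x r ξ hr hξ => ?_⟩
  filter_upwards [noise_off hb d T, words_ae hb d T c hc hT x r ξ hr hξ] with ω h1 h2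
  refine ⟨h1, fun hβ q hq => ⟨fun a ha => ?_, h2 hβ q hq⟩⟩
  have h3 := h2 hβ q hq 1 (fun _ : Fin 1 => (⟨a, ha⟩ : Fin q))
  rw [pow_one] at h3
  refine h3.congr' ?_
  have hy1 : ∀ᶠ n : ℕ in atTop, 1 ≤ ξ * (x + r * Real.ofDigits ω) ^ n :=
    (Tendsto.const_mul_atTop hξ (tendsto_pow_atTop_atTop_of_one_lt hβ)).eventually_ge_atTop 1
  filter_upwards [hy1] with n hn
  have hm : ⌊ξ * (x + r * Real.ofDigits ω) ^ n⌋₊ ≠ 0 := by
    have : 1 ≤ ⌊ξ * (x + r * Real.ofDigits ω) ^ n⌋₊ := Nat.le_floor (by exact_mod_cast hn)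
    omega
  rw [count_occ q hq a ha _ hm]

end Pool.Agent.Results.MP_b08cb4_nt.NoisyBase
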