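import Pool.Agent.Q197.DT.C

/-! # Digit frequencies of `p ^ n` plus a number with a short period

For a word `w` of `P` digits in base `q` let `R` be the number which consists of `M` copies of `w`,
`M` being as large as possible so that `R` has not more digits than `p ^ n`. For all but a proportion
`4 q |E| / ε * exp(-ε ^ 2 P / 2)` of the `q ^ P` words `w` the frequency of each digit in `p ^ n + R`
is `1 / q` up to `2 ε + 4 P / (n log_q p)`, for all exponents `n` of the finite set `E`. So for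
`P ≥ C log X / ε ^ 2` one word is good for all `n ≤ X`. -/

set_option autoImplicit false

open Finset Filter

namespace Pool.Agent.Results.MP_b08cb4_nt.PeriodicSummands

/-- The number of the base `q` digits of `Y` which are equal to `d`; there are
`⌊log_q Y⌋ + 1` digits. -/
def digitCount (q d Y : ℕ) : ℕ := ((range (Nat.log q Y + 1)).filter (fun i => Y / q ^ i % q = d)).card

/-- The number `p ^ n + w (1 + q ^ P + … + q ^ (P (M - 1)))`, where `P M` is the largest multiple of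
`P` which is at most the number of digits of `p ^ n`. -/
def shifted (p q P n w : ℕ) : ℕ :=
  p ^ n + w * ∑ j ∈ range ((Nat.log q (p ^ n) + 1) / P), q ^ (P * j)

lemma per_lt {q P : ℕ} (hq : 2 ≤ q) (hP : 1 ≤ P) (M w : ℕ) (hw : w < q ^ P) :
    w * ∑ j ∈ range M, q ^ (P * j) < q ^ (P * M) := by
  have hQ : 2 ≤ q ^ P := hq.trans (Nat.le_self_pow (by omega) q)
  have h1 : (q ^ P - 1) * ∑ i ∈ range M, q ^ (P * i) = q ^ (P * M) - 1 := by
    have h2 := Nat.geomSum_eq hQ M
    have h3 : ∑ i ∈ range M, q ^ (P * i) = ∑ i ∈ range M, (q ^ P) ^ i :=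
      sum_congr rfl fun i _ => by rw [pow_mul]
    rw [h3, h2, pow_mul]
    exact Nat.mul_div_cancel' (by
      have := Nat.sub_dvd_pow_sub_pow (q ^ P) 1 M
      simpa using this)
  have h2 : w * ∑ j ∈ range M, q ^ (P * j) ≤ (q ^ P - 1) * ∑ i ∈ range M, q ^ (P * i) :=
    Nat.mul_le_mul_right _ (by omega)
  have h3 : 0 < q ^ (P * M) := by positivity
  omega

lemma one_exponent {p q P n w d : ℕ} (hp : 2 ≤ p) (hq : 2 ≤ q) (hP : 1 ≤ P) (hn : 1 ≤ n)
    (hw : w < q ^ P) {e : ℝ} (he : 0 < e) (he1 : e ≤ 1)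
    (h : |(Q197.DT.dc q d (P * ((Nat.log q (p ^ n) + 1) / P))
      (p ^ n + Q197.DT.per q P ((Nat.log q (p ^ n) + 1) / P) w) : ℝ) -
        P * ((Nat.log q (p ^ n) + 1) / P : ℕ) / q| ≤ 2 * e * (P * ((Nat.log q (p ^ n) + 1) / P : ℕ))) :
    |(digitCount q d (shifted p q P n w) : ℝ) / (n * Real.logb q p) - 1 / q| ≤
      2 * e + 4 * P / (n * Real.logb q p) := by
  obtain ⟨L, hL⟩ : ∃ L, L = Nat.log q (p ^ n) + 1 := ⟨_, rfl⟩
  obtain ⟨M, hM⟩ : ∃ M, M = L / P := ⟨_, rfl⟩
  obtain ⟨Y, hY⟩ : ∃ Y, Y = shifted p q P n w := ⟨_, rfl⟩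
  have hY2 : Y = p ^ n + Q197.DT.per q P M w := by
    rw [hY, hM, hL]
    rfl
  rw [← hY]
  rw [← hL, ← hM, ← hY2] at h
  have hpn : p ^ n ≠ 0 := by positivity
  have hlow : q ^ (L - 1) ≤ p ^ n := by
    rw [hL]
    exact Nat.pow_log_le_self q hpn
  have hup : p ^ n < q ^ L := by
    rw [hL]
    exact Nat.lt_pow_succ_log_self (by omega) _
  have hPM : P * M ≤ L := by rw [hM]; exact Nat.mul_div_le L P
  have hPM2 : L < P * M + P := by
    rw [hM]
    have := Nat.lt_mul_div_succ L (by omega : 0 < P)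
    rw [mul_add, mul_one] at this
    exact this
  have hR : Q197.DT.per q P M w < q ^ L := by
    have h1 := per_lt hq hP M w hw
    have h2 : q ^ (P * M) ≤ q ^ L := Nat.pow_le_pow_right (by omega) hPM
    unfold Q197.DT.per
    omega
  have hYup : Y < q ^ (L + 1) := by
    rw [hY2, pow_succ]
    nlinarith
  have hYlow : q ^ (L - 1) ≤ Y := by
    rw [hY2]
    exact hlow.trans (Nat.le_add_right _ _)
  have hY0 : Y ≠ 0 := by
    have : 0 < q ^ (L - 1) := by positivity
    omega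
  obtain ⟨N, hN⟩ : ∃ N, N = Nat.log q Y + 1 := ⟨_, rfl⟩
  have hN1 : N ≤ L + 1 := by
    rw [hN]
    have := (Nat.log_lt_iff_lt_pow (by omega : 1 < q) hY0).2 hYup
    omega
  have hN2 : L ≤ N := by
    rw [hN]
    have := (Nat.le_log_iff_pow_le (by omega : 1 < q) hY0).2 hYlow
    omega
  have hc1 : Q197.DT.dc q d (P * M) Y ≤ digitCount q d Y := by
    unfold Q197.DT.dc digitCount
    rw [← hN]
    exact card_le_card (filter_subset_filter _ (range_subset_range.2 (hPM.trans hN2)))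
  have hc2 : digitCount q d Y ≤ Q197.DT.dc q d (P * M) Y + P := by
    unfold Q197.DT.dc digitCount
    rw [← hN]
    have h1 : N = P * M + (N - P * M) := by omega
    have h2 : (range N).filter (fun i => Y / q ^ i % q = d) ⊆
        (range (P * M)).filter (fun i => Y / q ^ i % q = d) ∪ (range N \ range (P * M)) := by
      intro i hi
      rw [mem_filter] at hi
      rw [mem_union, mem_filter, Finset.mem_sdiff]
      by_cases h3 : i ∈ range (P * M)
      · exact Or.inl ⟨h3, hi.2⟩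
      · exact Or.inr ⟨hi.1, h3⟩
    refine (card_le_card h2).trans ((card_union_le _ _).trans ?_)
    have h3 : (range N \ range (P * M)).card = N - P * M := by
      rw [card_sdiff_of_subset (range_subset_range.2 (hPM.trans hN2)), card_range, card_range]
    omega
  -- the logarithm
  obtain ⟨l, hl⟩ : ∃ l : ℝ, l = n * Real.logb q p := ⟨_, rfl⟩
  have hl2 : l = Real.logb q ((p ^ n : ℕ) : ℝ) := by
    rw [hl]
    push_cast
    rw [Real.logb_pow]
  have hq1 : (1 : ℝ) < q := by exact_mod_cast (by omega : 1 < q)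
  have hq2 : (2 : ℝ) ≤ q := by exact_mod_cast hq
  have hpnr : (0 : ℝ) < ((p ^ n : ℕ) : ℝ) := by exact_mod_cast Nat.pos_of_ne_zero hpn
  have hll : (L : ℝ) - 1 ≤ l := by
    rw [hl2, Real.le_logb_iff_rpow_le hq1 hpnr]
    have h1 : ((L : ℝ) - 1) = ((L - 1 : ℕ) : ℝ) := by
      rw [Nat.cast_sub (by omega)]
      simp
    rw [h1, Real.rpow_natCast]
    exact_mod_cast hlow
  have hlu : l ≤ L := by
    rw [hl2, Real.logb_le_iff_le_rpow hq1 hpnr, Real.rpow_natCast]
    exact_mod_cast hup.le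
  have hl0 : 0 < l := by
    rw [hl]
    have : 0 < Real.logb q p := Real.logb_pos hq1 (by exact_mod_cast (by omega : 1 < p))
    have hnr : (0 : ℝ) < n := by exact_mod_cast hn
    positivity
  rw [← hl]
  have hc1' : (Q197.DT.dc q d (P * M) Y : ℝ) ≤ digitCount q d Y := by exact_mod_cast hc1
  have hc2' : (digitCount q d Y : ℝ) ≤ Q197.DT.dc q d (P * M) Y + P := by exact_mod_cast hc2
  have hPMr : (P : ℝ) * M ≤ L := by exact_mod_cast hPM
  have hPM2r : (L : ℝ) + 1 ≤ P * M + P := by exact_mod_cast hPM2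
  have hPr : (1 : ℝ) ≤ P := by exact_mod_cast hP
  have hPM0 : (0 : ℝ) ≤ P * M := by positivity
  have key : |(digitCount q d Y : ℝ) - l / q| ≤ 2 * e * l + 4 * P := by
    have h1 := abs_le.1 h
    have h2 : |(P : ℝ) * M - l| ≤ P := by
      rw [abs_le]
      constructor <;> linarith
    have h3 : |(P : ℝ) * M / q - l / q| ≤ P / 2 := by
      rw [← sub_div, abs_div, abs_of_pos (by linarith : (0 : ℝ) < q)]
      calc |(P : ℝ) * M - l| / q ≤ P / q := div_le_div_of_nonneg_right h2 (by linarith)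
        _ ≤ P / 2 := div_le_div_of_nonneg_left (by linarith) (by norm_num) hq2
    have h4 := abs_le.1 h3
    have h5 : 2 * e * ((P : ℝ) * M) ≤ 2 * e * l + 2 := by
      have : (P : ℝ) * M ≤ l + 1 := by linarith
      nlinarith
    rw [abs_le]
    constructor <;> linarith [h1.1, h1.2, h4.1, h4.2]
  have h1 : (digitCount q d Y : ℝ) / l - 1 / q = ((digitCount q d Y : ℝ) - l / q) / l := by
    field_simp
  rw [h1, abs_div, abs_of_pos hl0, div_le_iff₀ hl0]
  have h2 : (2 * e + 4 * P / l) * l = 2 * e * l + 4 * P := by field_simp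
  rw [h2]
  exact key

open Classical in
theorem result (p q P : ℕ) (hp : 2 ≤ p) (hq : 2 ≤ q) (hP : 1 ≤ P) (E : Finset ℕ)
    (hE : ∀ n ∈ E, 1 ≤ n) (ε : ℝ) (h0 : 0 < ε) (h1 : ε ≤ 1) :
    (((range (q ^ P)).filter (fun w : ℕ => ¬ ∀ n ∈ E, ∀ d < q,
      |(digitCount q d (shifted p q P n w) : ℝ) / (n * Real.logb q p) - 1 / q| ≤
        2 * ε + 4 * P / (n * Real.logb q p))).card : ℝ) ≤
      4 * q * E.card / ε * Real.exp (-(ε ^ 2 * P / 2)) * (q : ℝ) ^ P := by
  have hsub : (range (q ^ P)).filter (fun w : ℕ => ¬ ∀ n ∈ E, ∀ d < q,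
      |(digitCount q d (shifted p q P n w) : ℝ) / (n * Real.logb q p) - 1 / q| ≤
        2 * ε + 4 * P / (n * Real.logb q p)) ⊆
      E.biUnion (fun n => (range q).biUnion (fun d => (range (q ^ P)).filter (fun w =>
        2 * ε * (P * ((Nat.log q (p ^ n) + 1) / P : ℕ)) <
        |(Q197.DT.dc q d (P * ((Nat.log q (p ^ n) + 1) / P))
          (p ^ n + Q197.DT.per q P ((Nat.log q (p ^ n) + 1) / P) w) : ℝ) -
          P * ((Nat.log q (p ^ n) + 1) / P : ℕ) / q|))) := by
    intro w hw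
    rw [mem_filter, mem_range] at hw
    obtain ⟨hw1, hw2⟩ := hw
    push Not at hw2
    obtain ⟨n, hn, d, hd, h⟩ := hw2
    rw [mem_biUnion]
    refine ⟨n, hn, ?_⟩
    rw [mem_biUnion]
    refine ⟨d, mem_range.2 hd, ?_⟩
    rw [mem_filter, mem_range]
    refine ⟨hw1, ?_⟩
    by_contra hcon
    push Not at hcon
    exact absurd (one_exponent hp hq hP (hE n hn) hw1 h0 h1 hcon) (not_le.2 h)
  have h5 := (card_le_card hsub).trans card_biUnion_le
  calc (((range (q ^ P)).filter (fun w : ℕ => ¬ ∀ n ∈ E, ∀ d < q,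
      |(digitCount q d (shifted p q P n w) : ℝ) / (n * Real.logb q p) - 1 / q| ≤
        2 * ε + 4 * P / (n * Real.logb q p))).card : ℝ)
      ≤ ∑ n ∈ E, (((range q).biUnion (fun d => (range (q ^ P)).filter (fun w =>
        2 * ε * (P * ((Nat.log q (p ^ n) + 1) / P : ℕ)) <
        |(Q197.DT.dc q d (P * ((Nat.log q (p ^ n) + 1) / P))
          (p ^ n + Q197.DT.per q P ((Nat.log q (p ^ n) + 1) / P) w) : ℝ) -
          P * ((Nat.log q (p ^ n) + 1) / P : ℕ) / q|))).card : ℝ) := by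
        exact_mod_cast h5
    _ ≤ ∑ n ∈ E, ∑ d ∈ range q, (((range (q ^ P)).filter (fun w =>
        2 * ε * (P * ((Nat.log q (p ^ n) + 1) / P : ℕ)) <
        |(Q197.DT.dc q d (P * ((Nat.log q (p ^ n) + 1) / P))
          (p ^ n + Q197.DT.per q P ((Nat.log q (p ^ n) + 1) / P) w) : ℝ) -
          P * ((Nat.log q (p ^ n) + 1) / P : ℕ) / q|)).card : ℝ) := by
        refine sum_le_sum fun n _ => ?_
        exact_mod_cast card_biUnion_le
    _ ≤ ∑ n ∈ E, ∑ d ∈ range q, (4 / ε * Real.exp (-(ε ^ 2 * P / 2)) * (q : ℝ) ^ P) := by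
        refine sum_le_sum fun n _ => sum_le_sum fun d hd => ?_
        exact Q197.DT.freq_summands hq hP (mem_range.1 hd) h0 h1 (p ^ n) _
    _ = 4 * q * E.card / ε * Real.exp (-(ε ^ 2 * P / 2)) * (q : ℝ) ^ P := by
        rw [sum_const, sum_const, card_range, nsmul_eq_mul, nsmul_eq_mul]
        ring

end Pool.Agent.Results.MP_b08cb4_nt.PeriodicSummands
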