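import Pool.Agent.Q270.VS.Pw

/-!
# The base `q` digits of all powers `p ^ k` for almost all `q`

(1) In a uniform random base `q ≤ N` the digits of a fixed number `A ≤ exp ((log N) ^ (1 + δ))` are
independent and uniform in total variation. (2) For almost all `q` (so for almost all primes `q`)
the digits of all powers `p ^ k ≤ exp ((log q) ^ (1 + δ))`, `p ≤ exp ((log q) ^ κ)`, have almost
square root discrepancy in all windows.
-/

set_option autoImplicit false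

namespace Pool.Agent.Results.MP_b08cb4_nt.PowersInRandomBases

open Finset Filter Topology

/-- the `i`-th base `q` digit of `A` (`i = 0` is the lowest one) -/
def digit (q A i : ℕ) : ℕ := A / q ^ i % q

/-- `0.a_i a_{i-1} … a_0` in base `q`, where the `a_j` are the base `q` digits of `A` -/
noncomputable def tail (q A i : ℕ) : ℝ := ((A % q ^ (i + 1) : ℕ) : ℝ) / (q : ℝ) ^ (i + 1)

/-- the number of the places `i` with `s ≤ i < s + n` at which the base `q` digit of `A` lies in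
`[u q, v q)` -/
noncomputable def count (q A s n : ℕ) (u v : ℝ) : ℕ :=
  ((Ico s (s + n)).filter (fun i => u * q ≤ (digit q A i : ℝ) ∧ (digit q A i : ℝ) < v * q)).card

/-- the digits of all powers `p ^ k ≤ exp ((log q) ^ (1 + δ))` with `p ≤ exp ((log q) ^ κ)` have
discrepancy at most `√n (log q) ^ ε` in all windows of `n` places below the top one -/
def Good (δ κ ε : ℝ) (q : ℕ) : Prop :=
  ∀ p k : ℕ, 2 ≤ p → (p : ℝ) ≤ Real.exp ((Real.log q) ^ κ) →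
    (p : ℝ) ^ k ≤ Real.exp ((Real.log q) ^ (1 + δ)) →
    ∀ s n : ℕ, (q : ℝ) ^ (((s + n : ℕ) : ℝ) + ε) ≤ (p : ℝ) ^ k →
    ∀ u v : ℝ, 0 ≤ u → u ≤ v → v ≤ 1 →
      |(count q (p ^ k) s n u v : ℝ) - n * (v - u)| ≤ √(n : ℝ) * (Real.log q) ^ ε

theorem result : ∃ δ : ℝ, 0 < δ ∧
    (∀ ε : ℝ, 0 < ε → ∀ᶠ N : ℕ in atTop, ∀ A J Q : ℕ, (N : ℝ) ^ ((J : ℝ) + ε) ≤ A →
      (A : ℝ) ≤ Real.exp ((Real.log N) ^ (1 + δ)) → 1 ≤ Q →
      (Q : ℝ) ≤ Real.exp ((Real.log N) ^ δ) → ∀ W : Set (Fin J → ℕ),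
        |({q : ℕ | 1 ≤ q ∧ q ≤ N ∧
              (fun i : Fin J => ⌊(Q : ℝ) * tail q A i⌋₊) ∈ W}.ncard : ℝ) / N -
            ({w : Fin J → ℕ | (∀ i, w i < Q) ∧ w ∈ W}.ncard : ℝ) / (Q : ℝ) ^ J| ≤
          Real.exp (-(Real.log N) ^ δ)) ∧
    (∀ ε : ℝ, 0 < ε → ∃ κ : ℝ, 0 < κ ∧ ∀ᶠ N : ℕ in atTop,
      ({q : ℕ | 1 ≤ q ∧ q ≤ N ∧ ¬ Good δ κ ε q}.ncard : ℝ) ≤
        N * Real.exp (-(Real.log N) ^ κ)) := by
  classical
  obtain ⟨δ₁, hδ₁, hδ₁', htv⟩ := Pool.Agent.Q270.VS.tvd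
  obtain ⟨δ₂, hδ₂, hδ₂', hpw⟩ := Pool.Agent.Q270.VS.pw
  obtain ⟨δ, hδ⟩ : ∃ δ : ℝ, δ = min δ₁ δ₂ := ⟨_, rfl⟩
  have hδ0 : 0 < δ := by rw [hδ]; exact lt_min hδ₁ hδ₂
  have hδ1 : δ ≤ δ₁ := by rw [hδ]; exact min_le_left _ _
  have hδ2 : δ ≤ δ₂ := by rw [hδ]; exact min_le_right _ _
  have hlog : Tendsto (fun X : ℕ => Real.log (X : ℝ)) atTop atTop :=
    Real.tendsto_log_atTop.comp tendsto_natCast_atTop_atTop
  refine ⟨δ, hδ0, ?_, ?_⟩
  · intro ε hε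
    filter_upwards [htv ε hε, hlog.eventually_ge_atTop 1, eventually_ge_atTop 2] with N hN h1 h2
    intro A J Q hA1 hA2 hQ1 hQ2 W
    have h3 : (Real.log N) ^ (1 + δ) ≤ (Real.log N) ^ (1 + δ₁) :=
      Real.rpow_le_rpow_of_exponent_le h1 (by linarith)
    have h4 : (Real.log N) ^ δ ≤ (Real.log N) ^ δ₁ :=
      Real.rpow_le_rpow_of_exponent_le h1 hδ1
    have h5 := hN (A : ℝ) J Q (by rwa [Nat.abs_cast]) (by
      rw [Nat.abs_cast]
      exact hA2.trans (Real.exp_le_exp.2 h3)) hQ1 (hQ2.trans (Real.exp_le_exp.2 h4)) W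
    have h6 : {b : ℕ | (1 ≤ b ∧ b ≤ N) ∧ (fun i : Fin J =>
        ⌊(Q : ℝ) * Int.fract ((A : ℝ) / (b : ℝ) ^ ((i : ℕ) + 1))⌋₊) ∈ W} =
        {q : ℕ | 1 ≤ q ∧ q ≤ N ∧ (fun i : Fin J => ⌊(Q : ℝ) * tail q A i⌋₊) ∈ W} := by
      ext q
      simp only [Set.mem_setOf_eq, and_assoc]
      have h7 : ∀ i : ℕ, Int.fract ((A : ℝ) / (q : ℝ) ^ (i + 1)) = tail q A i := by
        intro i
        unfold tail
        have := Int.fract_div_natCast_eq_div_natCast_mod (k := ℝ) (m := A) (n := q ^ (i + 1))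
        push_cast at this ⊢
        exact this
      simp only [h7]
    rw [h6] at h5
    exact h5.trans (Real.exp_le_exp.2 (by linarith))
  · intro ε hε
    obtain ⟨κ, hκ, hpw⟩ := hpw ε hε
    refine ⟨κ, hκ, ?_⟩
    filter_upwards [hpw] with N hN
    obtain ⟨B, hBc, hB⟩ := hN
    refine le_trans ?_ hBc
    have h1 : {q : ℕ | 1 ≤ q ∧ q ≤ N ∧ ¬ Good δ κ ε q} ⊆ (B : Set ℕ) := by
      rintro q ⟨hq1, hq2, hq3⟩
      by_contra hqB
      apply hq3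
      obtain ⟨h2, h3⟩ := hB q hq1 hq2 hqB
      intro p k hp hpP hpk s n hsn u v hu huv hv
      exact h3 p k hp hpP (hpk.trans (Real.exp_le_exp.2
        (Real.rpow_le_rpow_of_exponent_le h2 (by linarith)))) s n hsn u v hu huv hv
    have h2 := Set.ncard_le_ncard h1 B.finite_toSet
    rw [Set.ncard_coe_finset] at h2
    exact_mod_cast h2

end Pool.Agent.Results.MP_b08cb4_nt.PowersInRandomBases
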