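import Mathlib
import Pool.Agent.Q263.WE.Pj

/-!
The digits of all powers `p ^ n`, `n ≤ (log p) ^ κ`, in all bases `q ≤ (log p) ^ κ`, for almost all
integers `p` (in particular for almost all primes `p`).
-/

set_option autoImplicit false

open Filter Topology

namespace Pool.Agent.Results.MP_b08cb4_nt.PowersOfAlmostAllIntegers

theorem result : ∃ κ : ℝ, 0 < κ ∧ ∃ E : Set ℕ,
    (∀ᶠ x : ℕ in atTop, ((E ∩ Set.Iic x).ncard : ℝ) ≤ x * Real.exp (-(Real.log x) ^ κ)) ∧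
    ∀ p : ℕ, p ∉ E → ∀ n q k : ℕ, 1 ≤ n → 2 ≤ q → 1 ≤ k → (n : ℝ) ≤ (Real.log p) ^ κ →
      (q : ℝ) ^ k ≤ (Real.log p) ^ κ → ∀ W < q ^ k,
        |(((Finset.range (Nat.digits q (p ^ n)).length).filter
            (fun i => p ^ n / q ^ i % q ^ k = W)).card : ℝ) -
          ((Nat.digits q (p ^ n)).length : ℝ) / (q : ℝ) ^ k| ≤
            ((Nat.digits q (p ^ n)).length : ℝ) / (Real.log p) ^ κ := by
  obtain ⟨κ, hκ, E, hE1, hE2⟩ := Pool.Agent.Q263.WE.powers_normal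
  refine ⟨κ, hκ, E, hE1, ?_⟩
  intro p hp n q k hn hq hk hnp hqp W hW
  have h := hE2 p hp n q k hn hq hk hnp hqp W hW
  rw [mul_one_div] at h
  exact h

end Pool.Agent.Results.MP_b08cb4_nt.PowersOfAlmostAllIntegers
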